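import Pool.Agent.Lib.MP_67d80e_pr_g3.Ct3.D

/-!
Certificate in dimension 3: checks, part 11.
-/

set_option autoImplicit false

namespace Pool.Agent.Lib.MP_67d80e_pr_g3.Ct3

theorem cd2_2 : fa 22 36 (fun i => D.cDi 2 i) = true := by decide +kernel

theorem cs3 : D.cS 3 = true := by decide +kernel

theorem cc3 : D.cC 3 = true := by decide +kernel


end Pool.Agent.Lib.MP_67d80e_pr_g3.Ct3
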