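import Pool.Agent.Lib.MP_67d80e_pr_g3.Ct3.D

/-!
Certificate in dimension 3: checks, part 15.
-/

set_option autoImplicit false

namespace Pool.Agent.Lib.MP_67d80e_pr_g3.Ct3

theorem cn4 : D.cN 4 = true := by decide +kernel

theorem ce4 : D.cE 4 = true := by decide +kernel

theorem cb4 : D.cB 4 = true := by decide +kernel


end Pool.Agent.Lib.MP_67d80e_pr_g3.Ct3
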