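import Pool.Agent.Lib.MP_67d80e_pr_g3.Ct3.D

/-!
Certificate in dimension 3: checks, part 21.
-/

set_option autoImplicit false

namespace Pool.Agent.Lib.MP_67d80e_pr_g3.Ct3

theorem cd8_0 : fa 20 36 (fun i => D.cDi 8 i) = true := by decide +kernel

theorem cs9 : D.cS 9 = true := by decide +kernel

theorem cc9 : D.cC 9 = true := by decide +kernel

theorem cn9 : D.cN 9 = true := by decide +kernel

theorem ce9 : D.cE 9 = true := by decide +kernel

theorem cb9 : D.cB 9 = true := by decide +kernel

theorem cd9_0 : fa 22 36 (fun i => D.cDi 9 i) = true := by decide +kernel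

theorem cs10 : D.cS 10 = true := by decide +kernel

theorem cc10 : D.cC 10 = true := by decide +kernel

theorem cn10 : D.cN 10 = true := by decide +kernel

theorem ce10 : D.cE 10 = true := by decide +kernel

theorem cb10 : D.cB 10 = true := by decide +kernel


end Pool.Agent.Lib.MP_67d80e_pr_g3.Ct3
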