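import Pool.Agent.Lib.MP_67d80e_pr_g3.Ct3.D

/-!
Certificate in dimension 3: checks, part 23.
-/

set_option autoImplicit false

namespace Pool.Agent.Lib.MP_67d80e_pr_g3.Ct3

theorem cn14 : D.cN 14 = true := by decide +kernel

theorem ce14 : D.cE 14 = true := by decide +kernel

theorem cb14 : D.cB 14 = true := by decide +kernel

theorem cd14_0 : fa 27 36 (fun i => D.cDi 14 i) = true := by decide +kernel

theorem cs15 : D.cS 15 = true := by decide +kernel

theorem cc15 : D.cC 15 = true := by decide +kernel

theorem cn15 : D.cN 15 = true := by decide +kernel

theorem ce15 : D.cE 15 = true := by decide +kernel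

theorem cb15 : D.cB 15 = true := by decide +kernel

theorem cd15_0 : fa 27 36 (fun i => D.cDi 15 i) = true := by decide +kernel

theorem cs16 : D.cS 16 = true := by decide +kernel

theorem cc16 : D.cC 16 = true := by decide +kernel

theorem cn16 : D.cN 16 = true := by decide +kernel

theorem ce16 : D.cE 16 = true := by decide +kernel

theorem cb16 : D.cB 16 = true := by decide +kernel

theorem cd16_0 : fa 27 36 (fun i => D.cDi 16 i) = true := by decide +kernel

theorem cs17 : D.cS 17 = true := by decide +kernel

theorem cc17 : D.cC 17 = true := by decide +kernel

theorem cn17 : D.cN 17 = true := by decide +kernel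

theorem ce17 : D.cE 17 = true := by decide +kernel

theorem cb17 : D.cB 17 = true := by decide +kernel

theorem cd17_0 : fa 28 36 (fun i => D.cDi 17 i) = true := by decide +kernel

theorem cs18 : D.cS 18 = true := by decide +kernel

theorem cc18 : D.cC 18 = true := by decide +kernel

theorem cn18 : D.cN 18 = true := by decide +kernel

theorem ce18 : D.cE 18 = true := by decide +kernel

theorem cb18 : D.cB 18 = true := by decide +kernel

theorem cd18_0 : fa 29 36 (fun i => D.cDi 18 i) = true := by decide +kernel

theorem cs19 : D.cS 19 = true := by decide +kernel

theorem cc19 : D.cC 19 = true := by decide +kernel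

theorem cn19 : D.cN 19 = true := by decide +kernel

theorem ce19 : D.cE 19 = true := by decide +kernel

theorem cb19 : D.cB 19 = true := by decide +kernel

theorem cd19_0 : fa 29 36 (fun i => D.cDi 19 i) = true := by decide +kernel

theorem cs20 : D.cS 20 = true := by decide +kernel

theorem cc20 : D.cC 20 = true := by decide +kernel

theorem cn20 : D.cN 20 = true := by decide +kernel

theorem ce20 : D.cE 20 = true := by decide +kernel

theorem cb20 : D.cB 20 = true := by decide +kernel

theorem cd20_0 : fa 30 36 (fun i => D.cDi 20 i) = true := by decide +kernel

theorem cs21 : D.cS 21 = true := by decide +kernel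

theorem cc21 : D.cC 21 = true := by decide +kernel

theorem cn21 : D.cN 21 = true := by decide +kernel

theorem ce21 : D.cE 21 = true := by decide +kernel

theorem cb21 : D.cB 21 = true := by decide +kernel

theorem cd21_0 : fa 30 36 (fun i => D.cDi 21 i) = true := by decide +kernel

theorem cs22 : D.cS 22 = true := by decide +kernel

theorem cc22 : D.cC 22 = true := by decide +kernel

theorem cn22 : D.cN 22 = true := by decide +kernel

theorem ce22 : D.cE 22 = true := by decide +kernel

theorem cb22 : D.cB 22 = true := by decide +kernel

theorem cd22_0 : fa 30 36 (fun i => D.cDi 22 i) = true := by decide +kernel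

theorem cs23 : D.cS 23 = true := by decide +kernel

theorem cc23 : D.cC 23 = true := by decide +kernel

theorem cn23 : D.cN 23 = true := by decide +kernel

theorem ce23 : D.cE 23 = true := by decide +kernel

theorem cb23 : D.cB 23 = true := by decide +kernel

theorem cd23_0 : fa 31 36 (fun i => D.cDi 23 i) = true := by decide +kernel

theorem cs24 : D.cS 24 = true := by decide +kernel

theorem cc24 : D.cC 24 = true := by decide +kernel

theorem cn24 : D.cN 24 = true := by decide +kernel

theorem ce24 : D.cE 24 = true := by decide +kernel

theorem cb24 : D.cB 24 = true := by decide +kernel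


end Pool.Agent.Lib.MP_67d80e_pr_g3.Ct3
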