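import Pool.Agent.Lib.MP_67d80e_pr_g3.Ct3.D

/-!
Certificate in dimension 3: checks, part 19.
-/

set_option autoImplicit false

namespace Pool.Agent.Lib.MP_67d80e_pr_g3.Ct3

theorem cb6 : D.cB 6 = true := by decide +kernel

theorem cd6_0 : fa 17 36 (fun i => D.cDi 6 i) = true := by decide +kernel

theorem cs7 : D.cS 7 = true := by decide +kernel

theorem cc7 : D.cC 7 = true := by decide +kernel

theorem cn7 : D.cN 7 = true := by decide +kernel

theorem ce7 : D.cE 7 = true := by decide +kernel


end Pool.Agent.Lib.MP_67d80e_pr_g3.Ct3
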